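import Mathlib

/-!
# The 2-adic valuations of the coefficients of the 5-th and 9-th powers of the Thue-Morse product

With `F(x) = ∏ (1 - x^(2^i))` and `F^m = ∑ t_m(n) x^n` we prove, for all `n` and with
`v = ν₂(n + 1)`, that `ν₂(t_5(4n+j)) = 4⌈v/2⌉ - (v mod 2)` for `j < 4` and
`ν₂(t_9(8n+j)) = 5⌈v/2⌉ - 2(v mod 2)` for `j < 8` (both explicit cases of Q2 are true).

Proof.  For `m = 2^k + 1` the window `w(z) = (t_m(z-1), ..., t_m(z-2^k))` satisfies `w(2z) = A w(z)`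
with an integral matrix `A`.  There is a lattice `P ℤ^(2^k)` with `A² P = 2^e P B`, `A P = 8 Q`,
`e = 4, 5` for `k = 2, 3`, such that the first columns of `P`, `Q` are odd, their other columns
even, and the first row of `B` is `(1, 0, ..., 0)` modulo 2; and `w(2^k (2s+1))` is `P y` with `y`
having an odd first coordinate, because `t_m(s) + t_m(s-2^k)` is odd for all `s ≥ 0`.

The first lemmas (`G_succ` to `c_succ`) are those of the file `NotDetermined` of this problem.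
-/

set_option autoImplicit false

namespace Pool.Agent.Results.MP_1a5b88_nt.ExplicitValuations

open Finset Polynomial Matrix

/-- `t m n` is the coefficient of `x^n` in `∏_{i ≥ 0} (1 - x^(2^i))^m`.  The factors with `i > n`
do not contribute to this coefficient (as `2^i > n`), so the product may be cut at `i ≤ n`. -/
noncomputable def t (m n : ℕ) : ℤ := (∏ i ∈ range (n + 1), (1 - (X : ℤ[X]) ^ (2 ^ i)) ^ m).coeff n

/-- the partial products -/
noncomputable def G (m N : ℕ) : ℤ[X] := ∏ i ∈ range N, (1 - (X : ℤ[X]) ^ (2 ^ i)) ^ m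

theorem G_succ (m N : ℕ) : G m (N + 1) = (1 - X) ^ m * expand ℤ 2 (G m N) := by
  unfold G
  rw [prod_range_succ', mul_comm]
  congr 1
  · simp
  · rw [map_prod]
    refine prod_congr rfl fun i _ => ?_
    simp only [map_pow, map_sub, map_one, expand_X]
    rw [← pow_mul, pow_succ, mul_comm 2]

theorem G_succ' (m N : ℕ) : G m (N + 1) = G m N * (1 - (X : ℤ[X]) ^ (2 ^ N)) ^ m := by
  unfold G
  rw [prod_range_succ]

/-- coefficients with an integer index -/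
noncomputable def c (m N : ℕ) (z : ℤ) : ℤ := if z < 0 then 0 else (G m N).coeff z.toNat

theorem coeff_stable {m N n : ℕ} (h : n < 2 ^ N) : (G m (N + 1)).coeff n = (G m N).coeff n := by
  rw [G_succ']
  obtain ⟨Q, hQ⟩ : ∃ Q : ℤ[X], (1 - (X : ℤ[X]) ^ (2 ^ N)) ^ m = 1 + X ^ (2 ^ N) * Q := by
    have h1 : (X : ℤ[X]) ^ (2 ^ N) ∣ (1 - (X : ℤ[X]) ^ (2 ^ N)) ^ m - 1 := by
      have := sub_dvd_pow_sub_pow (1 - (X : ℤ[X]) ^ (2 ^ N)) 1 m
      rw [one_pow] at this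
      refine dvd_trans ⟨-1, by ring⟩ this
    obtain ⟨Q, hQ⟩ := h1
    exact ⟨Q, by linear_combination hQ⟩
  rw [hQ, mul_add, mul_one, coeff_add]
  have : (G m N * (X ^ (2 ^ N) * Q)).coeff n = 0 := by
    rw [show G m N * (X ^ (2 ^ N) * Q) = (G m N * Q) * X ^ (2 ^ N) by ring, coeff_mul_X_pow']
    rw [if_neg (by omega)]
  rw [this, add_zero]

theorem coeff_stable' {m N n : ℕ} (h : n < 2 ^ N) (M : ℕ) :
    (G m (N + M)).coeff n = (G m N).coeff n := by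
  induction M with
  | zero => rfl
  | succ M ih =>
    rw [← add_assoc, coeff_stable (lt_of_lt_of_le h (Nat.pow_le_pow_right (by norm_num) (by omega))),
      ih]

theorem t_eq {m N n : ℕ} (h : n < 2 ^ N) : t m n = c m N n := by
  have h2 : n < 2 ^ (n + 1) := lt_of_lt_of_le (Nat.lt_two_pow_self) (Nat.pow_le_pow_right (by norm_num) (by omega))
  have e1 : t m n = (G m (n + 1)).coeff n := rfl
  have e2 : c m N n = (G m N).coeff n := by
    unfold c
    rw [if_neg (by omega)]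
    simp
  rw [e1, e2]
  rcases le_total N (n + 1) with hle | hle
  · obtain ⟨M, hM⟩ := Nat.exists_eq_add_of_le hle
    rw [hM, coeff_stable' h]
  · obtain ⟨M, hM⟩ := Nat.exists_eq_add_of_le hle
    rw [hM, coeff_stable' h2]

theorem one_sub_X_pow (m : ℕ) :
    (1 - X : ℤ[X]) ^ m = ∑ j ∈ range (m + 1), C ((-1) ^ j * (m.choose j : ℤ)) * X ^ j := by
  rw [sub_eq_add_neg, add_comm, add_pow]
  refine sum_congr rfl fun j _ => ?_
  rw [neg_pow]
  simp
  ring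

theorem c_succ (m N : ℕ) (z : ℤ) :
    c m (N + 1) z = ∑ j ∈ range (m + 1), (-1) ^ j * (m.choose j : ℤ) *
      (if (z - j) % 2 = 0 then c m N ((z - j) / 2) else 0) := by
  unfold c
  split_ifs with hz
  · symm
    refine sum_eq_zero fun j _ => ?_
    have : (z - j) / 2 < 0 := by omega
    rw [if_pos this]
    simp
  · obtain ⟨n, rfl⟩ := Int.eq_ofNat_of_zero_le (not_lt.mp hz)
    simp only [Int.toNat_natCast]
    rw [G_succ, one_sub_X_pow, sum_mul, finsetSum_coeff]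
    refine sum_congr rfl fun j _ => ?_
    rw [mul_assoc, coeff_C_mul, coeff_X_pow_mul']
    congr 1
    by_cases hj : j ≤ n
    · rw [if_pos hj, coeff_expand (by norm_num)]
      by_cases h2 : 2 ∣ n - j
      · rw [if_pos h2, if_pos (by omega), if_neg (by omega)]
        congr 1
        omega
      · rw [if_neg h2, if_neg (by omega)]
    · rw [if_neg hj]
      split_ifs with h1 h2
      · rfl
      · exfalso; omega
      · rfl

def A5 : Matrix (Fin 4) (Fin 4) ℤ := !![-5, -10, -1, 0; 1, 10, 5, 0; 0, -5, -10, -1; 0, 1, 10, 5]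

def P5 : Matrix (Fin 4) (Fin 4) ℤ := !![1, 0, 0, 0; 11, 16, 0, 0; 245, 240, 256, 0; 47, 32, 0, 64]

def B5 : Matrix (Fin 4) (Fin 4) ℤ := !![-563, -568, -560, 4; 388, 393, 384, -4; 179, 179, 180, 0; 209, 210, 208, 0]

def Q5 : Matrix (Fin 4) (Fin 4) ℤ := !![-45, -50, -32, 0; 167, 170, 160, 0; -319, -314, -320, -8; 337, 322, 320, 40]

def A1_5 : Matrix (Fin 4) (Fin 5) ℤ := !![1, 10, 5, 0, 0; 0, -5, -10, -1, 0; 0, 1, 10, 5, 0; 0, 0, -5, -10, -1]

def S5 : Matrix (Fin 4) (Fin 5) ℤ := !![15, 340, 170, -140, -1; -10, -251, -155, 95, 1; -5, -90, -15, 46, 0; -6, -122, -50, 50, 0]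

def A9 : Matrix (Fin 8) (Fin 8) ℤ := !![-9, -84, -126, -36, -1, 0, 0, 0; 1, 36, 126, 84, 9, 0, 0, 0; 0, -9, -84, -126, -36, -1, 0, 0; 0, 1, 36, 126, 84, 9, 0, 0; 0, 0, -9, -84, -126, -36, -1, 0; 0, 0, 1, 36, 126, 84, 9, 0; 0, 0, 0, -9, -84, -126, -36, -1; 0, 0, 0, 1, 36, 126, 84, 9]

def P9 : Matrix (Fin 8) (Fin 8) ℤ := !![1, 0, 0, 0, 0, 0, 0, 0; 23, 32, 0, 0, 0, 0, 0, 0; 11, 0, 16, 0, 0, 0, 0, 0; 429, 3616, 3184, 4096, 0, 0, 0, 0; 213, 64, 192, 320, 512, 0, 0, 0; 8739, 59616, 13888, 21696, 28160, 65536, 0, 0; 176543, 106496, 5136, 389568, 476672, 401408, 524288, 0; 242479929, 4342560, 63460720, 171285568, 213772800, 180609024, 129499136, 268435456]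

def B9 : Matrix (Fin 8) (Fin 8) ℤ := !![29215, 232330, 401976, 511824, -113408, -319232, 16384, 0; -20896, -160802, -294060, -376520, 86592, 245504, -16384, 0; -11868, -157244, -291881, -350970, 108784, 261376, 16384, 0; 24546, 239452, 444380, 551558, -149392, -387072, 0, 0; -6847, -164805, -294151, -371136, 98944, 256640, -8192, 16384; 11435, 140201, 254762, 324843, -80584, -218944, 12288, -8192; -25855, -179459, -330476, -413261, 102620, 277256, -4096, -8192; -28677, -199392, -350630, -448849, 96566, 278764, -18176, -3584]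

def Q9 : Matrix (Fin 8) (Fin 8) ℤ := !![-2373, -16616, -14604, -18472, -64, 0, 0, 0; 5021, 38184, 33900, 43368, 576, 0, 0, 0; -8949, -64728, -52916, -68664, -5824, -8192, 0, 0; 18877, 124696, 67860, 92280, 37056, 73728, 0, 0; -69265, -320560, -99612, -194376, -194368, -345088, -65536, 0; 295657, 763056, 168956, 689544, 840000, 1139712, 589824, 0; -31244793, -1965744, -8180036, -23513432, -29315520, -25414656, -18546688, -33554432; 274782273, 6943280, 71667236, 197130392, 245945280, 208432128, 151191552, 301989888]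

def A1_9 : Matrix (Fin 8) (Fin 9) ℤ := !![1, 36, 126, 84, 9, 0, 0, 0, 0; 0, -9, -84, -126, -36, -1, 0, 0, 0; 0, 1, 36, 126, 84, 9, 0, 0, 0; 0, 0, -9, -84, -126, -36, -1, 0, 0; 0, 0, 1, 36, 126, 84, 9, 0, 0; 0, 0, 0, -9, -84, -126, -36, -1, 0; 0, 0, 0, 1, 36, 126, 84, 9, 0; 0, 0, 0, 0, -9, -84, -126, -36, -1]

def S9 : Matrix (Fin 8) (Fin 9) ℤ := !![-1143, 307584, 190404, -19239696, -18373410, 6401376, 1798740, -18000, 1; 819, -224388, -13464, 14274236, 12902742, -5035500, -1308528, 15156, -1; 810, -218391, -334215, 13582269, 14382177, -3996261, -1355589, 8447, 1; -1233, 335679, 251675, -21148709, -20649939, 6883773, 2021193, -18071, 0; 840, -227895, -104351, 14363197, 13514037, -4871301, -1340189, 14015, -1; -717, 196178, 19174, -12467750, -11305092, 4388214, 1144426, -13218, 1; 912, -248279, -164918, 15647303, 15137628, -5139289, -1486166, 13705, 0; 988, -267506, -103594, 16833829, 15705987, -5742496,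 -1558628, 16669, -1]

theorem c5_even (N : ℕ) (z : ℤ) : c 5 (N + 1) (2 * z) = (1) * c 5 N (z - 0) + (10) * c 5 N (z - 1) + (5) * c 5 N (z - 2) := by
  rw [c_succ]
  simp only [sum_range_succ, sum_range_zero]
  rw [if_pos (show (2 * z - ((0 : ℕ) : ℤ)) % 2 = 0 by push_cast; omega), show (2 * z - ((0 : ℕ) : ℤ)) / 2 = z - 0 by push_cast; omega]
  rw [if_neg (show ¬ (2 * z - ((1 : ℕ) : ℤ)) % 2 = 0 by push_cast; omega)]
  rw [if_pos (show (2 * z - ((2 : ℕ) : ℤ)) % 2 = 0 by push_cast; omega), show (2 * z - ((2 : ℕ) : ℤ)) / 2 = z - 1 by push_cast; omega]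
  rw [if_neg (show ¬ (2 * z - ((3 : ℕ) : ℤ)) % 2 = 0 by push_cast; omega)]
  rw [if_pos (show (2 * z - ((4 : ℕ) : ℤ)) % 2 = 0 by push_cast; omega), show (2 * z - ((4 : ℕ) : ℤ)) / 2 = z - 2 by push_cast; omega]
  rw [if_neg (show ¬ (2 * z - ((5 : ℕ) : ℤ)) % 2 = 0 by push_cast; omega)]
  simp only [show Nat.choose 5 0 = 1 from rfl, show Nat.choose 5 2 = 10 from rfl, show Nat.choose 5 4 = 5 from rfl]
  push_cast
  ring

theorem c5_odd (N : ℕ) (z : ℤ) : c 5 (N + 1) (2 * z + 1) = (-5) * c 5 N (z - 0) + (-10) * c 5 N (z - 1) + (-1) * c 5 N (z - 2) := by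
  rw [c_succ]
  simp only [sum_range_succ, sum_range_zero]
  rw [if_neg (show ¬ (2 * z + 1 - ((0 : ℕ) : ℤ)) % 2 = 0 by push_cast; omega)]
  rw [if_pos (show (2 * z + 1 - ((1 : ℕ) : ℤ)) % 2 = 0 by push_cast; omega), show (2 * z + 1 - ((1 : ℕ) : ℤ)) / 2 = z - 0 by push_cast; omega]
  rw [if_neg (show ¬ (2 * z + 1 - ((2 : ℕ) : ℤ)) % 2 = 0 by push_cast; omega)]
  rw [if_pos (show (2 * z + 1 - ((3 : ℕ) : ℤ)) % 2 = 0 by push_cast; omega), show (2 * z + 1 - ((3 : ℕ) : ℤ)) / 2 = z - 1 by push_cast; omega]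
  rw [if_neg (show ¬ (2 * z + 1 - ((4 : ℕ) : ℤ)) % 2 = 0 by push_cast; omega)]
  rw [if_pos (show (2 * z + 1 - ((5 : ℕ) : ℤ)) % 2 = 0 by push_cast; omega), show (2 * z + 1 - ((5 : ℕ) : ℤ)) / 2 = z - 2 by push_cast; omega]
  simp only [show Nat.choose 5 1 = 5 from rfl, show Nat.choose 5 3 = 10 from rfl, show Nat.choose 5 5 = 1 from rfl]
  push_cast
  ring

/-- the window of the 4 coefficients before `z` -/
noncomputable def w5 (N : ℕ) (z : ℤ) : Fin 4 → ℤ := fun i => c 5 N (z - (i : ℕ) - 1)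

/-- the window of the 5 coefficients up to `z` -/
noncomputable def W5 (N : ℕ) (z : ℤ) : Fin 5 → ℤ := fun i => c 5 N (z - (i : ℕ))

theorem w5_double (N : ℕ) (z : ℤ) : w5 (N + 1) (2 * z) = A5.mulVec (w5 N z) := by
  funext i
  fin_cases i
  · show c 5 (N + 1) (2 * z - ((0 : ℕ) : ℤ) - 1) = _
    rw [show (2 * z - ((0 : ℕ) : ℤ) - 1) = 2 * (z - 1) + 1 by push_cast; ring, c5_odd]
    simp only [A5, Matrix.mulVec, dotProduct, Fin.sum_univ_succ, w5]
    simp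
    ring_nf
  · show c 5 (N + 1) (2 * z - ((1 : ℕ) : ℤ) - 1) = _
    rw [show (2 * z - ((1 : ℕ) : ℤ) - 1) = 2 * (z - 1) by push_cast; ring, c5_even]
    simp only [A5, Matrix.mulVec, dotProduct, Fin.sum_univ_succ, w5]
    simp
    ring_nf
  · show c 5 (N + 1) (2 * z - ((2 : ℕ) : ℤ) - 1) = _
    rw [show (2 * z - ((2 : ℕ) : ℤ) - 1) = 2 * (z - 2) + 1 by push_cast; ring, c5_odd]
    simp only [A5, Matrix.mulVec, dotProduct, Fin.sum_univ_succ, w5]
    simp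
    ring_nf
  · show c 5 (N + 1) (2 * z - ((3 : ℕ) : ℤ) - 1) = _
    rw [show (2 * z - ((3 : ℕ) : ℤ) - 1) = 2 * (z - 2) by push_cast; ring, c5_even]
    simp only [A5, Matrix.mulVec, dotProduct, Fin.sum_univ_succ, w5]
    simp
    ring_nf

theorem w5_odd (N : ℕ) (z : ℤ) : w5 (N + 1) (2 * z + 1) = A1_5.mulVec (W5 N z) := by
  funext i
  fin_cases i
  · show c 5 (N + 1) (2 * z + 1 - ((0 : ℕ) : ℤ) - 1) = _
    rw [show (2 * z + 1 - ((0 : ℕ) : ℤ) - 1) = 2 * (z - 0) by push_cast; ring, c5_even]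
    simp only [A1_5, Matrix.mulVec, dotProduct, Fin.sum_univ_succ, W5]
    simp
    ring_nf
  · show c 5 (N + 1) (2 * z + 1 - ((1 : ℕ) : ℤ) - 1) = _
    rw [show (2 * z + 1 - ((1 : ℕ) : ℤ) - 1) = 2 * (z - 1) + 1 by push_cast; ring, c5_odd]
    simp only [A1_5, Matrix.mulVec, dotProduct, Fin.sum_univ_succ, W5]
    simp
    ring_nf
  · show c 5 (N + 1) (2 * z + 1 - ((2 : ℕ) : ℤ) - 1) = _
    rw [show (2 * z + 1 - ((2 : ℕ) : ℤ) - 1) = 2 * (z - 1) by push_cast; ring, c5_even]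
    simp only [A1_5, Matrix.mulVec, dotProduct, Fin.sum_univ_succ, W5]
    simp
    ring_nf
  · show c 5 (N + 1) (2 * z + 1 - ((3 : ℕ) : ℤ) - 1) = _
    rw [show (2 * z + 1 - ((3 : ℕ) : ℤ) - 1) = 2 * (z - 2) + 1 by push_cast; ring, c5_odd]
    simp only [A1_5, Matrix.mulVec, dotProduct, Fin.sum_univ_succ, W5]
    simp
    ring_nf

theorem c9_even (N : ℕ) (z : ℤ) : c 9 (N + 1) (2 * z) = (1) * c 9 N (z - 0) + (36) * c 9 N (z - 1) + (126) * c 9 N (z - 2) + (84) * c 9 N (z - 3) + (9) * c 9 N (z - 4) := by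
  rw [c_succ]
  simp only [sum_range_succ, sum_range_zero]
  rw [if_pos (show (2 * z - ((0 : ℕ) : ℤ)) % 2 = 0 by push_cast; omega), show (2 * z - ((0 : ℕ) : ℤ)) / 2 = z - 0 by push_cast; omega]
  rw [if_neg (show ¬ (2 * z - ((1 : ℕ) : ℤ)) % 2 = 0 by push_cast; omega)]
  rw [if_pos (show (2 * z - ((2 : ℕ) : ℤ)) % 2 = 0 by push_cast; omega), show (2 * z - ((2 : ℕ) : ℤ)) / 2 = z - 1 by push_cast; omega]
  rw [if_neg (show ¬ (2 * z - ((3 : ℕ) : ℤ)) % 2 = 0 by push_cast; omega)]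
  rw [if_pos (show (2 * z - ((4 : ℕ) : ℤ)) % 2 = 0 by push_cast; omega), show (2 * z - ((4 : ℕ) : ℤ)) / 2 = z - 2 by push_cast; omega]
  rw [if_neg (show ¬ (2 * z - ((5 : ℕ) : ℤ)) % 2 = 0 by push_cast; omega)]
  rw [if_pos (show (2 * z - ((6 : ℕ) : ℤ)) % 2 = 0 by push_cast; omega), show (2 * z - ((6 : ℕ) : ℤ)) / 2 = z - 3 by push_cast; omega]
  rw [if_neg (show ¬ (2 * z - ((7 : ℕ) : ℤ)) % 2 = 0 by push_cast; omega)]
  rw [if_pos (show (2 * z - ((8 : ℕ) : ℤ)) % 2 = 0 by push_cast; omega), show (2 * z - ((8 : ℕ) : ℤ)) / 2 = z - 4 by push_cast; omega]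
  rw [if_neg (show ¬ (2 * z - ((9 : ℕ) : ℤ)) % 2 = 0 by push_cast; omega)]
  simp only [show Nat.choose 9 0 = 1 from rfl, show Nat.choose 9 2 = 36 from rfl, show Nat.choose 9 4 = 126 from rfl, show Nat.choose 9 6 = 84 from rfl, show Nat.choose 9 8 = 9 from rfl]
  push_cast
  ring

theorem c9_odd (N : ℕ) (z : ℤ) : c 9 (N + 1) (2 * z + 1) = (-9) * c 9 N (z - 0) + (-84) * c 9 N (z - 1) + (-126) * c 9 N (z - 2) + (-36) * c 9 N (z - 3) + (-1) * c 9 N (z - 4) := by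
  rw [c_succ]
  simp only [sum_range_succ, sum_range_zero]
  rw [if_neg (show ¬ (2 * z + 1 - ((0 : ℕ) : ℤ)) % 2 = 0 by push_cast; omega)]
  rw [if_pos (show (2 * z + 1 - ((1 : ℕ) : ℤ)) % 2 = 0 by push_cast; omega), show (2 * z + 1 - ((1 : ℕ) : ℤ)) / 2 = z - 0 by push_cast; omega]
  rw [if_neg (show ¬ (2 * z + 1 - ((2 : ℕ) : ℤ)) % 2 = 0 by push_cast; omega)]
  rw [if_pos (show (2 * z + 1 - ((3 : ℕ) : ℤ)) % 2 = 0 by push_cast; omega), show (2 * z + 1 - ((3 : ℕ) : ℤ)) / 2 = z - 1 by push_cast; omega]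
  rw [if_neg (show ¬ (2 * z + 1 - ((4 : ℕ) : ℤ)) % 2 = 0 by push_cast; omega)]
  rw [if_pos (show (2 * z + 1 - ((5 : ℕ) : ℤ)) % 2 = 0 by push_cast; omega), show (2 * z + 1 - ((5 : ℕ) : ℤ)) / 2 = z - 2 by push_cast; omega]
  rw [if_neg (show ¬ (2 * z + 1 - ((6 : ℕ) : ℤ)) % 2 = 0 by push_cast; omega)]
  rw [if_pos (show (2 * z + 1 - ((7 : ℕ) : ℤ)) % 2 = 0 by push_cast; omega), show (2 * z + 1 - ((7 : ℕ) : ℤ)) / 2 = z - 3 by push_cast; omega]
  rw [if_neg (show ¬ (2 * z + 1 - ((8 : ℕ) : ℤ)) % 2 = 0 by push_cast; omega)]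
  rw [if_pos (show (2 * z + 1 - ((9 : ℕ) : ℤ)) % 2 = 0 by push_cast; omega), show (2 * z + 1 - ((9 : ℕ) : ℤ)) / 2 = z - 4 by push_cast; omega]
  simp only [show Nat.choose 9 1 = 9 from rfl, show Nat.choose 9 3 = 84 from rfl, show Nat.choose 9 5 = 126 from rfl, show Nat.choose 9 7 = 36 from rfl, show Nat.choose 9 9 = 1 from rfl]
  push_cast
  ring

/-- the window of the 8 coefficients before `z` -/
noncomputable def w9 (N : ℕ) (z : ℤ) : Fin 8 → ℤ := fun i => c 9 N (z - (i : ℕ) - 1)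

/-- the window of the 9 coefficients up to `z` -/
noncomputable def W9 (N : ℕ) (z : ℤ) : Fin 9 → ℤ := fun i => c 9 N (z - (i : ℕ))

theorem w9_double (N : ℕ) (z : ℤ) : w9 (N + 1) (2 * z) = A9.mulVec (w9 N z) := by
  funext i
  fin_cases i
  · show c 9 (N + 1) (2 * z - ((0 : ℕ) : ℤ) - 1) = _
    rw [show (2 * z - ((0 : ℕ) : ℤ) - 1) = 2 * (z - 1) + 1 by push_cast; ring, c9_odd]
    simp only [A9, Matrix.mulVec, dotProduct, Fin.sum_univ_succ, w9]
    simp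
    ring_nf
  · show c 9 (N + 1) (2 * z - ((1 : ℕ) : ℤ) - 1) = _
    rw [show (2 * z - ((1 : ℕ) : ℤ) - 1) = 2 * (z - 1) by push_cast; ring, c9_even]
    simp only [A9, Matrix.mulVec, dotProduct, Fin.sum_univ_succ, w9]
    simp
    ring_nf
  · show c 9 (N + 1) (2 * z - ((2 : ℕ) : ℤ) - 1) = _
    rw [show (2 * z - ((2 : ℕ) : ℤ) - 1) = 2 * (z - 2) + 1 by push_cast; ring, c9_odd]
    simp only [A9, Matrix.mulVec, dotProduct, Fin.sum_univ_succ, w9]
    simp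
    ring_nf
  · show c 9 (N + 1) (2 * z - ((3 : ℕ) : ℤ) - 1) = _
    rw [show (2 * z - ((3 : ℕ) : ℤ) - 1) = 2 * (z - 2) by push_cast; ring, c9_even]
    simp only [A9, Matrix.mulVec, dotProduct, Fin.sum_univ_succ, w9]
    simp
    ring_nf
  · show c 9 (N + 1) (2 * z - ((4 : ℕ) : ℤ) - 1) = _
    rw [show (2 * z - ((4 : ℕ) : ℤ) - 1) = 2 * (z - 3) + 1 by push_cast; ring, c9_odd]
    simp only [A9, Matrix.mulVec, dotProduct, Fin.sum_univ_succ, w9]
    simp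
    ring_nf
  · show c 9 (N + 1) (2 * z - ((5 : ℕ) : ℤ) - 1) = _
    rw [show (2 * z - ((5 : ℕ) : ℤ) - 1) = 2 * (z - 3) by push_cast; ring, c9_even]
    simp only [A9, Matrix.mulVec, dotProduct, Fin.sum_univ_succ, w9]
    simp
    ring_nf
  · show c 9 (N + 1) (2 * z - ((6 : ℕ) : ℤ) - 1) = _
    rw [show (2 * z - ((6 : ℕ) : ℤ) - 1) = 2 * (z - 4) + 1 by push_cast; ring, c9_odd]
    simp only [A9, Matrix.mulVec, dotProduct, Fin.sum_univ_succ, w9]
    simp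
    ring_nf
  · show c 9 (N + 1) (2 * z - ((7 : ℕ) : ℤ) - 1) = _
    rw [show (2 * z - ((7 : ℕ) : ℤ) - 1) = 2 * (z - 4) by push_cast; ring, c9_even]
    simp only [A9, Matrix.mulVec, dotProduct, Fin.sum_univ_succ, w9]
    simp
    ring_nf

theorem w9_odd (N : ℕ) (z : ℤ) : w9 (N + 1) (2 * z + 1) = A1_9.mulVec (W9 N z) := by
  funext i
  fin_cases i
  · show c 9 (N + 1) (2 * z + 1 - ((0 : ℕ) : ℤ) - 1) = _
    rw [show (2 * z + 1 - ((0 : ℕ) : ℤ) - 1) = 2 * (z - 0) by push_cast; ring, c9_even]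
    simp only [A1_9, Matrix.mulVec, dotProduct, Fin.sum_univ_succ, W9]
    simp
    ring_nf
  · show c 9 (N + 1) (2 * z + 1 - ((1 : ℕ) : ℤ) - 1) = _
    rw [show (2 * z + 1 - ((1 : ℕ) : ℤ) - 1) = 2 * (z - 1) + 1 by push_cast; ring, c9_odd]
    simp only [A1_9, Matrix.mulVec, dotProduct, Fin.sum_univ_succ, W9]
    simp
    ring_nf
  · show c 9 (N + 1) (2 * z + 1 - ((2 : ℕ) : ℤ) - 1) = _
    rw [show (2 * z + 1 - ((2 : ℕ) : ℤ) - 1) = 2 * (z - 1) by push_cast; ring, c9_even]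
    simp only [A1_9, Matrix.mulVec, dotProduct, Fin.sum_univ_succ, W9]
    simp
    ring_nf
  · show c 9 (N + 1) (2 * z + 1 - ((3 : ℕ) : ℤ) - 1) = _
    rw [show (2 * z + 1 - ((3 : ℕ) : ℤ) - 1) = 2 * (z - 2) + 1 by push_cast; ring, c9_odd]
    simp only [A1_9, Matrix.mulVec, dotProduct, Fin.sum_univ_succ, W9]
    simp
    ring_nf
  · show c 9 (N + 1) (2 * z + 1 - ((4 : ℕ) : ℤ) - 1) = _
    rw [show (2 * z + 1 - ((4 : ℕ) : ℤ) - 1) = 2 * (z - 2) by push_cast; ring, c9_even]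
    simp only [A1_9, Matrix.mulVec, dotProduct, Fin.sum_univ_succ, W9]
    simp
    ring_nf
  · show c 9 (N + 1) (2 * z + 1 - ((5 : ℕ) : ℤ) - 1) = _
    rw [show (2 * z + 1 - ((5 : ℕ) : ℤ) - 1) = 2 * (z - 3) + 1 by push_cast; ring, c9_odd]
    simp only [A1_9, Matrix.mulVec, dotProduct, Fin.sum_univ_succ, W9]
    simp
    ring_nf
  · show c 9 (N + 1) (2 * z + 1 - ((6 : ℕ) : ℤ) - 1) = _
    rw [show (2 * z + 1 - ((6 : ℕ) : ℤ) - 1) = 2 * (z - 3) by push_cast; ring, c9_even]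
    simp only [A1_9, Matrix.mulVec, dotProduct, Fin.sum_univ_succ, W9]
    simp
    ring_nf
  · show c 9 (N + 1) (2 * z + 1 - ((7 : ℕ) : ℤ) - 1) = _
    rw [show (2 * z + 1 - ((7 : ℕ) : ℤ) - 1) = 2 * (z - 4) + 1 by push_cast; ring, c9_odd]
    simp only [A1_9, Matrix.mulVec, dotProduct, Fin.sum_univ_succ, W9]
    simp
    ring_nf


/-- parity of a linear form whose only odd coefficient is the one of `y 0` -/
theorem par {n : ℕ} (M : Fin (n + 1) → ℤ) (hM : ∀ j, M j % 2 = if j = 0 then 1 else 0)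
    (y : Fin (n + 1) → ℤ) (hy : y 0 % 2 = 1) : (∑ j, M j * y j) % 2 = 1 := by
  have h : ((∑ j, M j * y j : ℤ) : ZMod 2) = ((1 : ℤ) : ZMod 2) := by
    rw [Int.cast_sum, Finset.sum_eq_single 0]
    · rw [ZMod.intCast_eq_intCast_iff_dvd_sub]
      have h1 := hM 0
      simp only [if_true] at h1
      have h2 : (M 0 * y 0) % 2 = 1 := by
        rw [Int.mul_emod, h1, hy]; rfl
      push_cast
      omega
    · intro j _ hj
      have h1 := hM j
      rw [if_neg hj] at h1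
      rw [ZMod.intCast_zmod_eq_zero_iff_dvd]
      exact Dvd.dvd.mul_right (by push_cast; omega) _
    · intro h; exact absurd (Finset.mem_univ _) h
  rw [ZMod.intCast_eq_intCast_iff_dvd_sub] at h
  push_cast at h
  omega

/-- iteration of a matrix on a lattice `P ℤ^n` with `A² P = 2^e P B` -/
theorem core {n : ℕ} (e : ℕ) (A P B Q : Matrix (Fin (n + 1)) (Fin (n + 1)) ℤ)
    (h1 : A * P = (8 : ℤ) • Q) (h2 : A * (A * P) = (2 ^ e : ℤ) • (P * B))
    (hP : ∀ i j, P i j % 2 = if j = 0 then 1 else 0)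
    (hQ : ∀ i j, Q i j % 2 = if j = 0 then 1 else 0)
    (hB : ∀ j, B 0 j % 2 = if j = 0 then 1 else 0) (v : ℕ) :
    ∀ y : Fin (n + 1) → ℤ, y 0 % 2 = 1 → ∀ i,
      ∃ k : ℤ, k % 2 = 1 ∧ ((A ^ v).mulVec (P.mulVec y)) i = 2 ^ (e * (v / 2) + 3 * (v % 2)) * k := by
  induction v using Nat.twoStepInduction with
  | zero =>
    intro y hy i
    refine ⟨(P.mulVec y) i, par (P i) (hP i) y hy, ?_⟩
    simp
  | one =>
    intro y hy i
    refine ⟨(Q.mulVec y) i, par (Q i) (hQ i) y hy, ?_⟩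
    rw [pow_one, Matrix.mulVec_mulVec, h1, Matrix.smul_mulVec]
    simp
  | more v ih _ =>
    intro y hy i
    obtain ⟨k, hk, hk2⟩ := ih (B.mulVec y) (par (B 0) hB y hy) i
    refine ⟨k, hk, ?_⟩
    have e1 : A ^ (v + 2) = A ^ v * (A * A) := by rw [pow_add, pow_two]
    have e2 : (A ^ (v + 2)).mulVec (P.mulVec y) =
        (2 ^ e : ℤ) • (A ^ v).mulVec (P.mulVec (B.mulVec y)) := by
      rw [e1, Matrix.mulVec_mulVec, Matrix.mul_assoc, Matrix.mul_assoc, h2, Matrix.mul_smul,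
        Matrix.smul_mulVec, Matrix.mulVec_mulVec, Matrix.mulVec_mulVec, Matrix.mul_assoc]
    rw [e2, Pi.smul_apply, hk2, smul_eq_mul, ← mul_assoc, ← pow_add]
    congr 2
    rw [show (v + 2) / 2 = v / 2 + 1 by omega, show (v + 2) % 2 = v % 2 by omega]
    ring

theorem emult {x k : ℤ} {a : ℕ} (hk : k % 2 = 1) (hx : x = 2 ^ a * k) :
    emultiplicity (2 : ℤ) x = (a : ℕ∞) := by
  rw [emultiplicity_eq_coe]
  subst hx
  refine ⟨Dvd.intro _ rfl, ?_⟩
  rw [pow_succ, mul_dvd_mul_iff_left (by positivity)]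
  omega


theorem par5 (N : ℕ) : ∀ s : ℤ, 0 ≤ s → s < 2 ^ N → (c 5 N s + c 5 N (s - 4)) % 2 = 1 := by
  induction N with
  | zero =>
    intro s h0 h1
    have hs : s = 0 := by rw [pow_zero] at h1; omega
    subst hs
    unfold c G
    simp
  | succ N ih =>
    intro s h0 h1
    rw [pow_succ] at h1
    rcases Int.emod_two_eq_zero_or_one s with h | h
    · obtain ⟨z, rfl⟩ : ∃ z, s = 2 * z := ⟨s / 2, by omega⟩
      have h2 := ih z (by omega) (by omega)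
      rw [show 2 * z - 4 = 2 * (z - 2) by ring, c5_even, c5_even]
      ring_nf at h2 ⊢
      omega
    · obtain ⟨z, rfl⟩ : ∃ z, s = 2 * z + 1 := ⟨s / 2, by omega⟩
      have h2 := ih z (by omega) (by omega)
      rw [show 2 * z + 1 - 4 = 2 * (z - 2) + 1 by ring, c5_odd, c5_odd]
      ring_nf at h2 ⊢
      omega

theorem w5_pow (N : ℕ) (z : ℤ) (k : ℕ) : w5 (N + k) (2 ^ k * z) = (A5 ^ k).mulVec (w5 N z) := by
  induction k with
  | zero => simp
  | succ k ih =>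
    rw [← add_assoc, show (2 : ℤ) ^ (k + 1) * z = 2 * (2 ^ k * z) by ring, w5_double, ih,
      Matrix.mulVec_mulVec, pow_succ']

theorem AS5 : A5 * (A5 * (A1_5)) = P5 * S5 := by decide +kernel

theorem AP5 : A5 * P5 = (8 : ℤ) • Q5 := by decide +kernel

theorem AAP5 : A5 * (A5 * P5) = (2 ^ 4 : ℤ) • (P5 * B5) := by decide +kernel

theorem P5_par : ∀ i j, P5 i j % 2 = if j = 0 then 1 else 0 := by decide +kernel

theorem Q5_par : ∀ i j, Q5 i j % 2 = if j = 0 then 1 else 0 := by decide +kernel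

theorem B5_par : ∀ j, B5 0 j % 2 = if j = 0 then 1 else 0 := by decide +kernel

theorem S5_par (N : ℕ) (s : ℤ) (h0 : 0 ≤ s) (h1 : s < 2 ^ N) :
    (S5.mulVec (W5 N s)) 0 % 2 = 1 := by
  have h := par5 N s h0 h1
  have e : (S5.mulVec (W5 N s)) 0 = ∑ j : Fin 5, S5 0 j * c 5 N (s - (j : ℕ)) := rfl
  rw [e]
  simp only [S5, Fin.sum_univ_succ]
  simp
  ring_nf at h ⊢
  omega

theorem main5 (n j : ℕ) (hj : j < 4) : ∃ k : ℤ, k % 2 = 1 ∧ t 5 (4 * n + j) =
    2 ^ (4 * (padicValNat 2 (n + 1) / 2) + 3 * (padicValNat 2 (n + 1) % 2)) * k := by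
  obtain ⟨v, u, hu, hn⟩ : ∃ v u : ℕ, ¬ 2 ∣ u ∧ n + 1 = 2 ^ v * u :=
    Nat.exists_eq_pow_mul_and_not_dvd (by omega) 2 (by norm_num)
  obtain ⟨s, rfl⟩ : ∃ s, u = 2 * s + 1 := ⟨u / 2, by omega⟩
  have hv : padicValNat 2 (n + 1) = v := by
    rw [hn, padicValNat.mul (by positivity) (by omega), padicValNat.prime_pow,
      padicValNat.eq_zero_of_not_dvd hu, add_zero]
  rw [hv]
  have hs : s + 1 ≤ 2 ^ s := Nat.lt_two_pow_self
  have hlt : 4 * n + j < 2 ^ (s + 1 + (v + 2)) := by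
    have e1 : 4 * n + j < 4 * (2 ^ v * (2 * s + 1)) := by omega
    have e2 : 4 * (2 ^ v * (2 * s + 1)) ≤ 4 * (2 ^ v * (2 * 2 ^ s)) := by gcongr; omega
    have e3 : 4 * (2 ^ v * (2 * 2 ^ s)) = 2 ^ (s + 1 + (v + 2)) := by ring
    omega
  rw [t_eq hlt]
  have hz : ((4 * n + j : ℕ) : ℤ) = 2 ^ (v + 2) * (2 * (s : ℤ) + 1) - ((3 - j : ℕ) : ℤ) - 1 := by
    have h3 : ((n : ℤ) + 1) = 2 ^ v * (2 * (s : ℤ) + 1) := by exact_mod_cast hn
    rw [pow_add, Nat.cast_sub (by omega)]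
    push_cast
    linear_combination 4 * h3
  have hw : c 5 (s + 1 + (v + 2)) ((4 * n + j : ℕ) : ℤ) =
      w5 (s + 1 + (v + 2)) (2 ^ (v + 2) * (2 * (s : ℤ) + 1)) ⟨3 - j, by omega⟩ := by
    rw [hz]; rfl
  rw [hw, w5_pow, w5_odd]
  have e4 : (A5 ^ (v + 2)).mulVec (A1_5.mulVec (W5 s (s : ℤ))) =
      (A5 ^ v).mulVec (P5.mulVec (S5.mulVec (W5 s (s : ℤ)))) := by
    rw [Matrix.mulVec_mulVec (M := P5), ← AS5, Matrix.mulVec_mulVec, Matrix.mulVec_mulVec, pow_add]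
    congr 1
    simp only [pow_succ, pow_zero, one_mul, Matrix.mul_assoc]
  rw [e4]
  exact core 4 A5 P5 B5 Q5 AP5 AAP5 P5_par Q5_par B5_par v _
    (S5_par s s (by positivity) (by exact_mod_cast hs)) _


theorem par9 (N : ℕ) : ∀ s : ℤ, 0 ≤ s → s < 2 ^ N → (c 9 N s + c 9 N (s - 8)) % 2 = 1 := by
  induction N with
  | zero =>
    intro s h0 h1
    have hs : s = 0 := by rw [pow_zero] at h1; omega
    subst hs
    unfold c G
    simp
  | succ N ih =>
    intro s h0 h1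
    rw [pow_succ] at h1
    rcases Int.emod_two_eq_zero_or_one s with h | h
    · obtain ⟨z, rfl⟩ : ∃ z, s = 2 * z := ⟨s / 2, by omega⟩
      have h2 := ih z (by omega) (by omega)
      rw [show 2 * z - 8 = 2 * (z - 4) by ring, c9_even, c9_even]
      ring_nf at h2 ⊢
      omega
    · obtain ⟨z, rfl⟩ : ∃ z, s = 2 * z + 1 := ⟨s / 2, by omega⟩
      have h2 := ih z (by omega) (by omega)
      rw [show 2 * z + 1 - 8 = 2 * (z - 4) + 1 by ring, c9_odd, c9_odd]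
      ring_nf at h2 ⊢
      omega

theorem w9_pow (N : ℕ) (z : ℤ) (k : ℕ) : w9 (N + k) (2 ^ k * z) = (A9 ^ k).mulVec (w9 N z) := by
  induction k with
  | zero => simp
  | succ k ih =>
    rw [← add_assoc, show (2 : ℤ) ^ (k + 1) * z = 2 * (2 ^ k * z) by ring, w9_double, ih,
      Matrix.mulVec_mulVec, pow_succ']

theorem AS9 : A9 * (A9 * (A9 * (A1_9))) = P9 * S9 := by decide +kernel

theorem AP9 : A9 * P9 = (8 : ℤ) • Q9 := by decide +kernel

theorem AAP9 : A9 * (A9 * P9) = (2 ^ 5 : ℤ) • (P9 * B9) := by decide +kernel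

theorem P9_par : ∀ i j, P9 i j % 2 = if j = 0 then 1 else 0 := by decide +kernel

theorem Q9_par : ∀ i j, Q9 i j % 2 = if j = 0 then 1 else 0 := by decide +kernel

theorem B9_par : ∀ j, B9 0 j % 2 = if j = 0 then 1 else 0 := by decide +kernel

theorem S9_par (N : ℕ) (s : ℤ) (h0 : 0 ≤ s) (h1 : s < 2 ^ N) :
    (S9.mulVec (W9 N s)) 0 % 2 = 1 := by
  have h := par9 N s h0 h1
  have e : (S9.mulVec (W9 N s)) 0 = ∑ j : Fin 9, S9 0 j * c 9 N (s - (j : ℕ)) := rfl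
  rw [e]
  simp only [S9, Fin.sum_univ_succ]
  simp
  ring_nf at h ⊢
  omega

theorem main9 (n j : ℕ) (hj : j < 8) : ∃ k : ℤ, k % 2 = 1 ∧ t 9 (8 * n + j) =
    2 ^ (5 * (padicValNat 2 (n + 1) / 2) + 3 * (padicValNat 2 (n + 1) % 2)) * k := by
  obtain ⟨v, u, hu, hn⟩ : ∃ v u : ℕ, ¬ 2 ∣ u ∧ n + 1 = 2 ^ v * u :=
    Nat.exists_eq_pow_mul_and_not_dvd (by omega) 2 (by norm_num)
  obtain ⟨s, rfl⟩ : ∃ s, u = 2 * s + 1 := ⟨u / 2, by omega⟩
  have hv : padicValNat 2 (n + 1) = v := by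
    rw [hn, padicValNat.mul (by positivity) (by omega), padicValNat.prime_pow,
      padicValNat.eq_zero_of_not_dvd hu, add_zero]
  rw [hv]
  have hs : s + 1 ≤ 2 ^ s := Nat.lt_two_pow_self
  have hlt : 8 * n + j < 2 ^ (s + 1 + (v + 3)) := by
    have e1 : 8 * n + j < 8 * (2 ^ v * (2 * s + 1)) := by omega
    have e2 : 8 * (2 ^ v * (2 * s + 1)) ≤ 8 * (2 ^ v * (2 * 2 ^ s)) := by gcongr; omega
    have e3 : 8 * (2 ^ v * (2 * 2 ^ s)) = 2 ^ (s + 1 + (v + 3)) := by ring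
    omega
  rw [t_eq hlt]
  have hz : ((8 * n + j : ℕ) : ℤ) = 2 ^ (v + 3) * (2 * (s : ℤ) + 1) - ((7 - j : ℕ) : ℤ) - 1 := by
    have h3 : ((n : ℤ) + 1) = 2 ^ v * (2 * (s : ℤ) + 1) := by exact_mod_cast hn
    rw [pow_add, Nat.cast_sub (by omega)]
    push_cast
    linear_combination 8 * h3
  have hw : c 9 (s + 1 + (v + 3)) ((8 * n + j : ℕ) : ℤ) =
      w9 (s + 1 + (v + 3)) (2 ^ (v + 3) * (2 * (s : ℤ) + 1)) ⟨7 - j, by omega⟩ := by
    rw [hz]; rfl
  rw [hw, w9_pow, w9_odd]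
  have e4 : (A9 ^ (v + 3)).mulVec (A1_9.mulVec (W9 s (s : ℤ))) =
      (A9 ^ v).mulVec (P9.mulVec (S9.mulVec (W9 s (s : ℤ)))) := by
    rw [Matrix.mulVec_mulVec (M := P9), ← AS9, Matrix.mulVec_mulVec, Matrix.mulVec_mulVec, pow_add]
    congr 1
    simp only [pow_succ, pow_zero, one_mul, Matrix.mul_assoc]
  rw [e4]
  exact core 5 A9 P9 B9 Q9 AP9 AAP9 P9_par Q9_par B9_par v _
    (S9_par s s (by positivity) (by exact_mod_cast hs)) _

/-- The 2-adic valuations of `t_5(4n+j)` and `t_9(8n+j)`. -/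
theorem result :
    (∀ n j : ℕ, j < 4 → emultiplicity (2 : ℤ) (t 5 (4 * n + j)) =
      ((4 * ((padicValNat 2 (n + 1) + 1) / 2) - padicValNat 2 (n + 1) % 2 : ℕ) : ℕ∞)) ∧
    ∀ n j : ℕ, j < 8 → emultiplicity (2 : ℤ) (t 9 (8 * n + j)) =
      ((5 * ((padicValNat 2 (n + 1) + 1) / 2) - 2 * (padicValNat 2 (n + 1) % 2) : ℕ) : ℕ∞) := by
  constructor
  · intro n j hj
    obtain ⟨k, hk, hx⟩ := main5 n j hj
    rw [emult hk hx]
    congr 1
    omega
  · intro n j hj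
    obtain ⟨k, hk, hx⟩ := main9 n j hj
    rw [emult hk hx]
    congr 1
    omega

end Pool.Agent.Results.MP_1a5b88_nt.ExplicitValuations
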